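import Pool.Agent.Helper84.OV.Zero

/-! Project OV, packet DXD: the degree in the inner variable is additive. -/

set_option autoImplicit false

namespace Pool.Agent.Helper3.OV.DXD

open Pool.Agent.Helper84.OV Polynomial
open scoped Polynomial Polynomial.Bivariate

lemma coeff_swap (S : ℤ[X][Y]) (i j : ℕ) :
    ((Polynomial.Bivariate.swap S).coeff i).coeff j = (S.coeff j).coeff i := by
  induction S using Polynomial.induction_on' with
  | add p q hp hq => simp only [map_add, coeff_add, hp, hq]
  | monomial n f =>
    induction f using Polynomial.induction_on' with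
    | add p q hp hq => simp only [map_add, coeff_add, hp, hq]
    | monomial m r =>
      rw [Polynomial.Bivariate.swap_monomial_monomial]
      simp only [coeff_monomial]
      by_cases h1 : m = i <;> by_cases h2 : n = j <;> simp [h1, h2, coeff_monomial]

lemma dx_iff (S : ℤ[X][Y]) (n : ℕ) :
    DX n S ↔ (Polynomial.Bivariate.swap S).natDegree ≤ n := by
  rw [natDegree_le_iff_coeff_eq_zero]
  unfold DX
  constructor
  · intro h i hi
    ext j
    rw [coeff_swap, coeff_zero]
    exact natDegree_le_iff_coeff_eq_zero.1 (h j) i hi
  · intro h j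
    rw [natDegree_le_iff_coeff_eq_zero]
    intro i hi
    rw [← coeff_swap, h i hi, coeff_zero]

theorem t : S_DXD := by
  intro S T n hT h
  by_cases hS : S = 0
  · subst hS
    intro j
    simp
  have hS' : Polynomial.Bivariate.swap S ≠ 0 := by
    intro h0; exact hS ((map_eq_zero_iff _ (Polynomial.Bivariate.swap (R := ℤ)).injective).1 h0)
  have hT' : Polynomial.Bivariate.swap T ≠ 0 := by
    intro h0; exact hT ((map_eq_zero_iff _ (Polynomial.Bivariate.swap (R := ℤ)).injective).1 h0)
  rw [dx_iff] at h ⊢
  rw [map_mul, natDegree_mul hS' hT'] at h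
  omega

end Pool.Agent.Helper3.OV.DXD
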